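import Pool.Agent.X284.EL.DIG

set_option autoImplicit false

open MeasureTheory Set Filter Topology
open scoped ENNReal

namespace Pool.Agent.X284.EL

open Pool.Agent.X171.EL Pool.Agent.X171.ED

noncomputable def e1 (i : ℕ) (ω : Om) : ℝ := if ω i = true then (1 / 2 : ℝ) ^ (i + 1) else 0

noncomputable def E (ω : Om) : ℝ := ∑' i, e1 i ω

lemma e1_nonneg (i : ℕ) (ω : Om) : 0 ≤ e1 i ω := by
  unfold e1; split_ifs <;> positivity

lemma E_meas : Measurable E := by
  have hc : Continuous E := by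
    refine continuous_tsum (u := fun i : ℕ => (1 / 2 : ℝ) ^ (i + 1)) ?_ ?_ ?_
    · intro i
      exact (continuous_of_discreteTopology (f := fun b : Bool =>
        if b = true then (1 / 2 : ℝ) ^ (i + 1) else 0)).comp (continuous_apply i)
    · exact (summable_nat_add_iff 1).2 (summable_geometric_of_lt_one (by norm_num) (by norm_num))
    · intro i ω
      rw [Real.norm_eq_abs, abs_of_nonneg (e1_nonneg i ω)]
      unfold e1
      split_ifs
      · exact le_rfl
      · positivity
  exact hc.measurable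

lemma tt_mem {t : ℝ} (ht : t ∈ Ioc (0 : ℝ) 1) : tt t ∈ Ioc (0 : ℝ) 1 := by
  unfold tt
  obtain ⟨h1, h2⟩ := ht
  split_ifs with h
  · constructor <;> linarith
  · constructor <;> linarith

lemma partial_sum {t : ℝ} (ht : t ∈ Ioc (0 : ℝ) 1) (n : ℕ) : tt^[n] t ∈ Ioc (0 : ℝ) 1 ∧
    ∑ i ∈ Finset.range n, e1 i (D t) = t - (1 / 2 : ℝ) ^ n * tt^[n] t := by
  induction n with
  | zero => simp only [Function.iterate_zero, id_eq, Finset.range_zero, Finset.sum_empty,
      pow_zero, one_mul, sub_self, and_true]; exact ht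
  | succ n ih =>
    rw [Function.iterate_succ_apply']
    refine ⟨tt_mem ih.1, ?_⟩
    rw [Finset.sum_range_succ, ih.2]
    unfold e1 D dg tt
    by_cases h : 1 / 2 < tt^[n] t
    · have h' : 1 / 2 < (fun t : ℝ => if 1 / 2 < t then 2 * t - 1 else 2 * t)^[n] t := h
      rw [if_pos (decide_eq_true h'), if_pos h', pow_succ]
      ring
    · have h' : ¬ 1 / 2 < (fun t : ℝ => if 1 / 2 < t then 2 * t - 1 else 2 * t)^[n] t := h
      rw [if_neg (by simpa using h'), if_neg h', pow_succ]
      ring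

lemma E_D {t : ℝ} (ht : t ∈ Ioc (0 : ℝ) 1) : E (D t) = t := by
  have h : HasSum (fun i => e1 i (D t)) t := by
    rw [hasSum_iff_tendsto_nat_of_nonneg (fun i => e1_nonneg i _)]
    have h1 : Tendsto (fun n : ℕ => (1 / 2 : ℝ) ^ n * tt^[n] t) atTop (𝓝 0) := by
      refine squeeze_zero (g := fun n : ℕ => (1 / 2 : ℝ) ^ n) ?_ ?_
        (tendsto_pow_atTop_nhds_zero_of_lt_one (by norm_num) (by norm_num))
      · intro n
        have := (partial_sum ht n).1.1
        positivity
      · intro n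
        have h2 := (partial_sum ht n).1.2
        have h3 : (0 : ℝ) < (1 / 2) ^ n := by positivity
        nlinarith
    have h2 : Tendsto (fun n : ℕ => t - (1 / 2 : ℝ) ^ n * tt^[n] t) atTop (𝓝 (t - 0)) :=
      tendsto_const_nhds.sub h1
    rw [sub_zero] at h2
    refine h2.congr fun n => ?_
    exact (partial_sum ht n).2.symm
  exact h.tsum_eq

lemma ae_ED : (E ∘ D) =ᵐ[LpI.μ] id :=
  (ae_restrict_iff' measurableSet_Ioc).2 (Eventually.of_forall fun _ ht => E_D ht)

lemma E_mp : MeasurePreserving E Pr LpI.μ := by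
  refine ⟨E_meas, ?_⟩
  rw [← D_mp.map_eq, Measure.map_map E_meas D_meas, Measure.map_congr ae_ED, Measure.map_id]

lemma ae_DE : ∀ᵐ ω ∂Pr, D (E ω) = ω := by
  have hm : MeasurableSet {ω : Om | D (E ω) = ω} := by
    have h1 : {ω : Om | D (E ω) = ω} =
        ⋂ i, (fun ω : Om => (D (E ω) i, ω i)) ⁻¹' {p : Bool × Bool | p.1 = p.2} := by
      ext ω
      simp only [mem_ofPred_eq, mem_iInter, mem_preimage]
      exact funext_iff
    rw [h1]
    refine MeasurableSet.iInter fun i => ?_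
    have h2 : Measurable (fun ω : Om => (D (E ω) i, ω i)) :=
      (((measurable_pi_apply i).comp (D_meas.comp E_meas))).prodMk (measurable_pi_apply i)
    exact h2 (MeasurableSet.of_discrete)
  rw [← D_mp.map_eq, ae_map_iff D_meas.aemeasurable hm]
  exact (ae_restrict_iff' measurableSet_Ioc).2 (Eventually.of_forall fun t ht => by rw [E_D ht])

theorem t_ISO : S_ISO := by
  let J0 : XX →ₗᵢ[ℝ] X1 := Lp.compMeasurePreservingₗᵢ ℝ E E_mp
  have hJ0 : ∀ x : XX, J0 x =ᵐ[Pr] x ∘ E := fun x => Lp.coeFn_compMeasurePreserving x E_mp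
  have hsurj : Function.Surjective J0 := by
    intro y
    refine ⟨Lp.compMeasurePreserving D D_mp y, ?_⟩
    apply Lp.ext
    have h1 := hJ0 (Lp.compMeasurePreserving D D_mp y)
    have h2 : (Lp.compMeasurePreserving D D_mp y : ℝ → ℝ) =ᵐ[LpI.μ] y ∘ D :=
      Lp.coeFn_compMeasurePreserving y D_mp
    have h3 := E_mp.quasiMeasurePreserving.ae_eq_comp h2
    refine h1.trans (h3.trans ?_)
    filter_upwards [ae_DE] with ω hω
    show y (D (E ω)) = y ω
    rw [hω]
  refine ⟨LinearIsometryEquiv.ofSurjective J0 hsurj, ?_, ?_⟩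
  · show J0 _ = _
    apply Lp.ext
    have h1 := hJ0 (Lp.const 1 LpI.μ (1 : ℝ))
    have h2 : (Lp.const 1 LpI.μ (1 : ℝ) : ℝ → ℝ) =ᵐ[LpI.μ] Function.const ℝ 1 :=
      Lp.coeFn_const ..
    have h3 := E_mp.quasiMeasurePreserving.ae_eq_comp h2
    have h4 : (Lp.const 1 Pr (1 : ℝ) : Om → ℝ) =ᵐ[Pr] Function.const Om 1 :=
      Lp.coeFn_const ..
    exact h1.trans (h3.trans h4.symm)
  · intro x
    show ∫ ω, J0 x ω ∂Pr = _
    rw [integral_congr_ae (hJ0 x)]
    have h5 : AEStronglyMeasurable (x : ℝ → ℝ) (Measure.map E Pr) := by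
      rw [E_mp.map_eq]; exact Lp.aestronglyMeasurable x
    have h6 := integral_map E_meas.aemeasurable h5
    rw [E_mp.map_eq] at h6
    exact h6.symm

end Pool.Agent.X284.EL
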