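import Pool.Agent.X171.EL.Stm

set_option autoImplicit false

open MeasureTheory Set Filter Topology
open scoped ENNReal

namespace Pool.Agent.X284.EL

open Pool.Agent.X171.EL Pool.Agent.X171.ED

noncomputable def dg (t : ℝ) : Bool := decide (1 / 2 < t)

noncomputable def tt (t : ℝ) : ℝ := if 1 / 2 < t then 2 * t - 1 else 2 * t

noncomputable def D (t : ℝ) : Om := fun i => dg (tt^[i] t)

lemma dg_meas : Measurable dg := by
  refine measurable_to_bool ?_
  have : dg ⁻¹' {true} = Ioi (1 / 2) := by
    ext t; simp [dg]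
  rw [this]; exact measurableSet_Ioi

lemma tt_meas : Measurable tt := by
  unfold tt
  exact Measurable.ite measurableSet_Ioi (by fun_prop) (by fun_prop)

lemma D_meas : Measurable D := by
  rw [measurable_pi_iff]
  intro i
  exact dg_meas.comp (tt_meas.iterate i)

lemma key (b : Bool) (A : Set ℝ) : LpI.μ {t | dg t = b ∧ tt t ∈ A} = 2⁻¹ * LpI.μ A := by
  have hI : MeasurableSet (Ioc (0 : ℝ) 1) := measurableSet_Ioc
  have h2 : ENNReal.ofReal |(2 : ℝ)⁻¹| = 2⁻¹ := by
    rw [abs_of_pos (by norm_num), ENNReal.ofReal_inv_of_pos (by norm_num)]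
    norm_num
  show (volume.restrict (Ioc (0 : ℝ) 1)) _ = 2⁻¹ * (volume.restrict (Ioc (0 : ℝ) 1)) A
  rw [Measure.restrict_apply' hI, Measure.restrict_apply' hI]
  cases b with
  | false =>
    have h1 : {t | dg t = false ∧ tt t ∈ A} ∩ Ioc (0 : ℝ) 1 =
        (fun t => 2 * t) ⁻¹' (A ∩ Ioc (0 : ℝ) 1) := by
      ext t
      simp only [mem_inter_iff, mem_ofPred_eq, mem_Ioc, mem_preimage, dg, tt,
        decide_eq_false_iff_not]
      constructor
      · rintro ⟨⟨h3, h4⟩, h5, h6⟩
        rw [if_neg h3] at h4
        exact ⟨h4, by linarith, by linarith⟩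
      · rintro ⟨h4, h5, h6⟩
        have h3 : ¬ (1 / 2 < t) := by linarith
        rw [if_neg h3]
        exact ⟨⟨h3, h4⟩, by linarith, by linarith⟩
    rw [h1, Real.volume_preimage_mul_left (by norm_num), h2]
  | true =>
    have h1 : {t | dg t = true ∧ tt t ∈ A} ∩ Ioc (0 : ℝ) 1 =
        (fun t => 2 * t) ⁻¹' ((fun x => x + (-1)) ⁻¹' (A ∩ Ioc (0 : ℝ) 1)) := by
      ext t
      simp only [mem_inter_iff, mem_ofPred_eq, mem_Ioc, mem_preimage, dg, tt,
        decide_eq_true_eq]
      constructor
      · rintro ⟨⟨h3, h4⟩, h5, h6⟩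
        rw [if_pos h3, sub_eq_add_neg] at h4
        exact ⟨h4, by linarith, by linarith⟩
      · rintro ⟨h4, h5, h6⟩
        have h3 : 1 / 2 < t := by linarith
        rw [if_pos h3, sub_eq_add_neg]
        exact ⟨⟨h3, h4⟩, by linarith, by linarith⟩
    rw [h1, Real.volume_preimage_mul_left (by norm_num), measure_preimage_add_right, h2]

lemma coin_half (b : Bool) : (PMF.uniformOfFintype Bool) b = 2⁻¹ := by
  rw [PMF.uniformOfFintype_apply]; simp

lemma coin_apply (s : Set Bool) : coin s = s.indicator (fun _ => (2 : ℝ≥0∞)⁻¹) true +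
    s.indicator (fun _ => (2 : ℝ≥0∞)⁻¹) false := by
  unfold coin
  rw [PMF.toMeasure_apply_fintype, Fintype.sum_bool]
  simp only [indicator, coin_half]

lemma cyl (n : ℕ) (t : ℕ → Set Bool) :
    LpI.μ {x | ∀ i < n, D x i ∈ t i} = ∏ i ∈ Finset.range n, coin (t i) := by
  classical
  induction n generalizing t with
  | zero => simp
  | succ n ih =>
    rw [Finset.prod_range_succ', ← ih (fun i => t (i + 1))]
    set A : Set ℝ := {x | ∀ i < n, D x i ∈ t (i + 1)} with hA
    have h1 : {x | ∀ i < n + 1, D x i ∈ t i} = {x | dg x ∈ t 0 ∧ tt x ∈ A} := by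
      ext x
      simp only [mem_ofPred_eq, hA]
      constructor
      · intro h
        exact ⟨h 0 (by omega), fun i hi => h (i + 1) (by omega)⟩
      · rintro ⟨h3, h4⟩ i hi
        cases i with
        | zero => exact h3
        | succ i => exact h4 i (by omega)
    have hAm : MeasurableSet A := by
      have : A = ⋂ i, ⋂ (_ : i < n), (fun x => D x i) ⁻¹' (t (i + 1)) := by
        ext x; simp [hA]
      rw [this]
      exact MeasurableSet.iInter fun i => MeasurableSet.iInter fun _ =>
        (measurable_pi_iff.1 D_meas i) (MeasurableSet.of_discrete)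
    have hS : ∀ b, MeasurableSet {x | dg x = b ∧ tt x ∈ A} := fun b =>
      (dg_meas (MeasurableSet.of_discrete (s := {b}))).inter (tt_meas hAm)
    have h2 : {x | dg x ∈ t 0 ∧ tt x ∈ A} =
        (if true ∈ t 0 then {x | dg x = true ∧ tt x ∈ A} else ∅) ∪
        (if false ∈ t 0 then {x | dg x = false ∧ tt x ∈ A} else ∅) := by
      ext x
      by_cases ht : true ∈ t 0 <;> by_cases hf : false ∈ t 0 <;>
        cases hx : dg x <;> simp [hx, ht, hf]
    have hd : Disjoint (if true ∈ t 0 then {x | dg x = true ∧ tt x ∈ A} else ∅)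
        (if false ∈ t 0 then {x | dg x = false ∧ tt x ∈ A} else ∅) := by
      have : Disjoint {x | dg x = true ∧ tt x ∈ A} {x | dg x = false ∧ tt x ∈ A} := by
        rw [Set.disjoint_left]
        rintro x ⟨h3, _⟩ ⟨h4, _⟩
        rw [h3] at h4; exact absurd h4 (by decide)
      split_ifs
      · exact this
      · exact disjoint_bot_right
      · exact disjoint_bot_left
      · exact disjoint_bot_left
    have hm : MeasurableSet (if false ∈ t 0 then {x | dg x = false ∧ tt x ∈ A} else ∅) := by
      split_ifs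
      · exact hS false
      · exact MeasurableSet.empty
    rw [h1, h2, measure_union hd hm, coin_apply, mul_add]
    congr 1
    · by_cases ht : true ∈ t 0
      · rw [if_pos ht, key, indicator_of_mem ht, mul_comm]
      · rw [if_neg ht, indicator_of_notMem ht]; simp
    · by_cases hf : false ∈ t 0
      · rw [if_pos hf, key, indicator_of_mem hf, mul_comm]
      · rw [if_neg hf, indicator_of_notMem hf]; simp

theorem D_mp : MeasurePreserving D LpI.μ Pr := by
  refine ⟨D_meas, ?_⟩
  unfold Pr
  refine Measure.eq_infinitePi _ ?_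
  intro s t ht
  obtain ⟨n, hn⟩ : ∃ n, s ⊆ Finset.range n := ⟨s.sup id + 1, fun i hi =>
    Finset.mem_range.2 (Nat.lt_succ_of_le (Finset.le_sup (f := id) hi))⟩
  classical
  have h1 := cyl n (fun i => if i ∈ s then t i else univ)
  have hms : MeasurableSet (Set.pi (s : Set ℕ) t) :=
    MeasurableSet.pi s.countable_toSet (fun i hi => MeasurableSet.of_discrete)
  rw [Measure.map_apply D_meas hms]
  have h2 : D ⁻¹' (Set.pi (s : Set ℕ) t) =
      {x | ∀ i < n, D x i ∈ (if i ∈ s then t i else univ : Set Bool)} := by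
    ext x
    simp only [mem_preimage, Set.mem_pi, Finset.mem_coe, mem_ofPred_eq]
    constructor
    · intro h i _
      split_ifs with hi
      · exact h i hi
      · trivial
    · intro h i hi
      have := h i (Finset.mem_range.1 (hn hi))
      rwa [if_pos hi] at this
  rw [h2, h1]
  rw [← Finset.prod_subset hn (f := fun i => coin (if i ∈ s then t i else univ))]
  · exact Finset.prod_congr rfl fun i hi => by rw [if_pos hi]
  · intro i _ hi
    rw [if_neg hi, measure_univ]

end Pool.Agent.X284.EL
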